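import Pool.Agent.W710.DP.Stm1

/-!
# DP-SUP: superadditivity
-/

set_option autoImplicit false

namespace Pool.Agent.W103.DP

open Finsupp Pool.Agent.W710.DP

section chains
variable {Z : Type}

lemma pr_eq_zero {A : List Z → ZMod 2} {z : List Z →₀ ZMod 2} (h : ∀ t ∈ z.support, A t = 0) :
    pr A z = 0 := by
  unfold pr
  rw [linearCombination_apply, Finsupp.sum]
  exact Finset.sum_eq_zero fun t ht => by rw [h t ht, smul_zero]

lemma bdL_support (s : List Z) : ∀ t ∈ (bdL s).support, t.length + 1 = s.length ∧ t ⊆ s := by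
  classical
  induction s with
  | nil => intro t ht; simp [bdL] at ht
  | cons x s ih =>
    intro t ht
    rw [bdL] at ht
    have h1 := Finsupp.support_add ht
    rw [Finset.mem_union] at h1
    rcases h1 with h1 | h1
    · have h2 := Finsupp.support_single_subset h1
      rw [Finset.mem_singleton] at h2
      subst h2
      exact ⟨by simp, by simp⟩
    · have h2 := Finsupp.mapDomain_support h1
      rw [Finset.mem_image] at h2
      obtain ⟨u, hu, rfl⟩ := h2
      obtain ⟨h3, h4⟩ := ih u hu
      refine ⟨by simp [h3], ?_⟩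
      exact List.cons_subset_cons x h4

lemma bd_support (z : List Z →₀ ZMod 2) (t : List Z) (ht : t ∈ (bd z).support) :
    ∃ s ∈ z.support, t ∈ (bdL s).support := by
  classical
  unfold bd at ht
  rw [linearCombination_apply] at ht
  have h1 := Finsupp.support_sum ht
  rw [Finset.mem_biUnion] at h1
  obtain ⟨s, hs, h2⟩ := h1
  exact ⟨s, hs, Finsupp.support_smul h2⟩

lemma ev_const (hs : List (Z → ZMod 2)) : ∀ (t : List Z) (h : Z → ZMod 2), h ∈ hs →
    (∀ p ∈ t, ∀ q ∈ t, h p = h q) → ev hs t = 0 := by
  induction hs with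
  | nil => intro t h hh; simp at hh
  | cons g hs ih =>
    intro t h hh hc
    match t with
    | [] => rfl
    | [x] => rfl
    | x :: y :: t =>
      rw [ev]
      rcases List.mem_cons.mp hh with h1 | h1
      · subst h1
        rw [hc x (by simp) y (by simp), CharTwo.add_self_eq_zero, zero_mul]
      · rw [ih (y :: t) h h1 (fun p hp q hq => hc p (List.mem_cons_of_mem _ hp) q
          (List.mem_cons_of_mem _ hq)), mul_zero]

lemma ev_map {Y : Type} (f : Z → Y) (hs : List (Y → ZMod 2)) : ∀ t : List Z,
    ev (hs.map fun h => h ∘ f) t = ev hs (t.map f) := by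
  induction hs with
  | nil => intro t; cases t <;> rfl
  | cons g hs ih =>
    intro t
    match t with
    | [] => rfl
    | [x] => rfl
    | x :: y :: t =>
      simp only [List.map_cons, ev, Function.comp_apply]
      rw [ih (y :: t)]
      rfl

lemma bdL_map {Y : Type} (f : Z → Y) (t : List Z) :
    bdL (t.map f) = (bdL t).mapDomain (List.map f) := by
  induction t with
  | nil => simp [bdL]
  | cons x t ih =>
    rw [List.map_cons, bdL, bdL, ih, Finsupp.mapDomain_add, Finsupp.mapDomain_single,
      ← Finsupp.mapDomain_comp, ← Finsupp.mapDomain_comp]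
    rfl

lemma cob_map {Y : Type} (f : Z → Y) (θ : List Y → ZMod 2) (t : List Z) :
    cob (fun s => θ (s.map f)) t = cob θ (t.map f) := by
  unfold cob pr
  rw [bdL_map, Finsupp.linearCombination_mapDomain]
  rfl

lemma cob_zero (θ : List Z → ZMod 2) (t : List Z) (h : ∀ s, s ⊆ t → θ s = 0) :
    cob θ t = 0 := by
  unfold cob
  exact pr_eq_zero fun s hs => h s (bdL_support t s hs).2

end chains

lemma Sw_append (b : ℝ) (w : List Letter) : ∀ (v : List Letter) (ζ : Cfg),
    Sw b (v ++ idL :: w) ζ = Sw b v ζ +
      (ζ.2 v.length - b) * (ζ.1 (v.length + 1) - ζ.1 v.length) +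
      Sw b w (shc (v.length + 1) ζ) := by
  intro v
  induction v with
  | nil => intro ζ; simp [Sw, idL]
  | cons l v ih =>
    intro ζ
    rw [List.cons_append, Sw, ih (shc 1 ζ), Sw]
    have h1 : shc (v.length + 1) (shc 1 ζ) = shc ((l :: v).length + 1) ζ := rfl
    rw [h1]
    have h2 : (shc 1 ζ).2 v.length = ζ.2 (l :: v).length := rfl
    have h3 : (shc 1 ζ).1 v.length = ζ.1 (l :: v).length := rfl
    have h4 : (shc 1 ζ).1 (v.length + 1) = ζ.1 ((l :: v).length + 1) := rfl
    rw [h2, h3, h4]
    ring

lemma hw_append (n k : ℕ) : hw (n + 1 + k) =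
    hw n ++ hy n :: (hw k).map (fun h => h ∘ shc (n + 1)) := by
  unfold hw
  rw [List.range_add, List.range_succ, List.map_append, List.map_append, List.append_assoc,
    List.map_map, List.map_map]
  congr 1
  simp only [List.map_cons, List.map_nil, List.singleton_append]
  congr 1
  apply List.map_congr_left
  intro i _
  funext ζ
  have h1 : n + 1 + i + 1 = i + 1 + (n + 1) := by omega
  have h2 : n + 1 + i = i + (n + 1) := by omega
  have h3 : ζ.1 (n + 1 + i + 1) - ζ.1 (n + 1 + i) =
      (shc (n + 1) ζ).1 (i + 1) - (shc (n + 1) ζ).1 i := by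
    simp only [shc]; rw [h1, h2]
  simp only [Function.comp_apply, hy]
  exact if_congr (by rw [h3]) rfl rfl

lemma hw_length (n : ℕ) : (hw n).length = n := by simp [hw]

/-- constancy of the sign of a large difference -/
lemma hy_const {N : ℕ} {ε : ℝ} (hε : ε ≤ 1 / 4) (t : List Cfg) (ht : CloseT N ε t) (i : ℕ)
    (hi : i < N) (p : Cfg) (hp : p ∈ t) (h3 : 3 ≤ |p.1 (i + 1) - p.1 i|) :
    ∀ q ∈ t, ∀ r ∈ t, hy i q = hy i r := by
  have key : ∀ q ∈ t, hy i q = hy i p := by
    intro q hq
    have h1 := (ht p hp q hq).1 i (by omega)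
    have h2 := (ht p hp q hq).1 (i + 1) (by omega)
    rw [abs_le] at h1 h2
    unfold hy
    rcases le_abs.mp h3 with h4 | h4
    · rw [if_pos (by linarith), if_pos (by linarith)]
    · rw [if_neg (by linarith), if_neg (by linarith)]
  intro q hq r hr
  rw [key q hq, key r hr]

/-- The three possible reasons of a very negative value. -/
lemma three {A B C M : ℝ} (h : A + B + C ≤ -M) : A ≤ -(M / 3) ∨ B ≤ -(M / 3) ∨ C ≤ -(M / 3) := by
  by_contra hc
  push Not at hc
  linarith [hc.1, hc.2.1, hc.2.2]

theorem t_sup (h1 : S_bdd) (h2 : S_dual) (h3 : S_tri) (h4 : S_far) (h5 : S_loc) : S_sup := by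
  intro b T e v w hPar hv hw' hvne hwne a a1 a2 ha hNN
  by_contra hcon
  push Not at hcon
  obtain ⟨hnv, hnw⟩ := hcon
  have hn1 : 1 ≤ v.length := List.length_pos_iff.mpr hvne
  have hk1 : 1 ≤ w.length := List.length_pos_iff.mpr hwne
  -- the numbers
  unfold NN at hnv hnw
  simp only [not_forall] at hnv hnw
  obtain ⟨M1, ε1, hε1, hnv⟩ := hnv
  obtain ⟨M2, ε2, hε2, hnw⟩ := hnw
  obtain ⟨η, hη0, hη1⟩ := h2 Cfg _ _ _ hnv
  obtain ⟨θ, hθ0, hθ1⟩ := h2 Cfg _ _ _ hnw
  rw [hw_length] at hη1 hθ1
  have hδ : 0 < (a1 + a2 - a) / 4 := by linarith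
  set δ := (a1 + a2 - a) / 4 with hδdef
  obtain ⟨F1, hF1⟩ := h4 b T e v hPar hv 3
  obtain ⟨F2, hF2⟩ := h4 b T e w hPar hw' 3
  obtain ⟨he, heb, heT⟩ := hPar
  have hPar : Par b T e := ⟨he, heb, heT⟩
  have hb0 : 0 < b := by linarith
  have hbT : b < T := by linarith
  have hGW : GoodW T e (v ++ idL :: w) := by
    intro l hl
    rw [List.mem_append, List.mem_cons] at hl
    rcases hl with hl | hl | hl
    · exact hv l hl
    · subst hl
      refine ⟨fun x s => hasDerivAt_const _ _, fun x s => hasDerivAt_const _ _, fun _ _ => rfl,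
        ⟨0, le_rfl, fun x s x' s' => by simp [idL]⟩, fun x s s' => ?_, fun _ _ _ => ⟨rfl, rfl, rfl⟩,
        fun x s => ?_⟩
      · simp only [idL, sub_self, abs_zero]; positivity
      · simp only [idL, abs_zero]; constructor <;> positivity
    · exact hw' l hl
  obtain ⟨M, hM1, hM2, hMF1, hMF2, hM3⟩ : ∃ M : ℝ, M1 ≤ M / 3 - 1 ∧ M2 ≤ M / 3 - 1 ∧
      F1 ≤ M / 3 - 1 ∧ F2 ≤ M / 3 - 1 ∧ 2 ≤ M / 3 := by
    refine ⟨3 * (|M1| + |M2| + |F1| + |F2| + 2), ?_, ?_, ?_, ?_, ?_⟩ <;>
      nlinarith [le_abs_self M1, le_abs_self M2, le_abs_self F1, le_abs_self F2,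
        abs_nonneg M1, abs_nonneg M2, abs_nonneg F1, abs_nonneg F2]
  obtain ⟨Y, hY0, hz⟩ := h1 b T e (v ++ idL :: w) hPar hGW a hNN M
  obtain ⟨L1, hL1, hLoc1⟩ := h5 b T e v hPar hv Y hY0
  obtain ⟨L2, hL2, hLoc2⟩ := h5 b T e w hPar hw' Y hY0
  obtain ⟨ε, hε, hεε1, hεε2, hε4, hεL1, hεL2, hεL1', hεL2', hεY, hεT⟩ : ∃ ε : ℝ, 0 < ε ∧ ε ≤ ε1 ∧
      ε ≤ ε2 ∧ ε ≤ 1 / 4 ∧ L1 * ε ≤ δ ∧ L2 * ε ≤ δ ∧ L1 * ε ≤ 1 ∧ L2 * ε ≤ 1 ∧ ε * Y ≤ δ ∧
      (2 * T + Y) * ε ≤ 1 := by
    set D := 1 / ε1 + 1 / ε2 + 4 + L1 / δ + L2 / δ + L1 + L2 + Y / δ + (2 * T + Y) with hD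
    have hT0 : 0 < T := by linarith
    have p1 : 0 < 1 / ε1 := by positivity
    have p2 : 0 < 1 / ε2 := by positivity
    have p3 : 0 ≤ L1 / δ := by positivity
    have p4 : 0 ≤ L2 / δ := by positivity
    have p5 : 0 ≤ Y / δ := by positivity
    have p6 : 0 ≤ 2 * T + Y := by positivity
    have hD0 : 0 < D := by rw [hD]; linarith
    refine ⟨1 / D, by positivity, ?_, ?_, ?_, ?_, ?_, ?_, ?_, ?_, ?_⟩
    · rw [div_le_comm₀ hD0 hε1]; linarith
    · rw [div_le_comm₀ hD0 hε2]; linarith
    · rw [div_le_div_iff₀ hD0 (by norm_num)]; linarith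
    · rw [mul_one_div, div_le_comm₀ hD0 hδ]; linarith
    · rw [mul_one_div, div_le_comm₀ hD0 hδ]; linarith
    · rw [mul_one_div, div_le_one hD0]; linarith
    · rw [mul_one_div, div_le_one hD0]; linarith
    · rw [one_div_mul_eq_div, div_le_comm₀ hD0 hδ]; linarith
    · rw [mul_one_div, div_le_one hD0]; linarith
  obtain ⟨z, hz1, hz2, hz3⟩ := hz ε hε
  have hlen : (v ++ idL :: w).length = v.length + 1 + w.length := by
    simp only [List.length_append, List.length_cons]; omega
  rw [hlen] at hz1 hz3
  rw [hw_length] at hz1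
  -- the cochains
  set g : Cfg → ZMod 2 := fun ζ => if ζ.2 v.length < b then 1 else 0 with hg
  set θ' : List Cfg → ZMod 2 := fun s => θ (s.map (shc (v.length + 1))) with hθ'
  set k : List (Cfg → ZMod 2) := (hw w.length).map (fun h => h ∘ shc (v.length + 1)) with hk
  have hklen : k.length = w.length := by rw [hk, List.length_map, hw_length]
  have hvl : (hw v.length).length = v.length := hw_length _
  have hmain := h3 Cfg (hw v.length) k (hy v.length) g η θ' z
    (by intro h; rw [h] at hvl; simp at hvl; omega)
    (by intro h; rw [h] at hklen; simp at hklen; omega)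
    (fun t ht => by rw [(hz1 t ht).1, hvl, hklen]; omega)
  rw [hvl] at hmain
  rw [hw_append, hmain] at hz3
  -- general facts on the points of a tuple of `z`
  have hclose_v : ∀ (s : List Cfg) (p q : Cfg), CloseT (v.length + 1 + w.length) ε s → p ∈ s →
      q ∈ s → Close v.length ε p q := by
    intro s p q hs hp hq
    have := hs p hp q hq
    exact ⟨fun i hi => this.1 i (by omega), fun i hi => this.2 i (by omega)⟩
  have hclose_w : ∀ (s : List Cfg) (p q : Cfg), CloseT (v.length + 1 + w.length) ε s → p ∈ s →
      q ∈ s → Close w.length ε (shc (v.length + 1) p) (shc (v.length + 1) q) := by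
    intro s p q hs hp hq
    have := hs p hp q hq
    exact ⟨fun i hi => this.1 (i + (v.length + 1)) (by omega),
      fun i hi => this.2 (i + (v.length + 1)) (by omega)⟩
  have hOm_v : ∀ p : Cfg, Om T (v.length + 1 + w.length) p → Om T v.length p :=
    fun p hp i hi => hp i (by omega)
  have hOm_w : ∀ p : Cfg, Om T (v.length + 1 + w.length) p →
      Om T w.length (shc (v.length + 1) p) :=
    fun p hp i hi => hp (i + (v.length + 1)) (by omega)
  have hY_v : ∀ p : Cfg, (∀ i < v.length + 1 + w.length, |p.1 (i + 1) - p.1 i| ≤ Y) →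
      ∀ i < v.length, |p.1 (i + 1) - p.1 i| ≤ Y := fun p hp i hi => hp i (by omega)
  have hY_w : ∀ p : Cfg, (∀ i < v.length + 1 + w.length, |p.1 (i + 1) - p.1 i| ≤ Y) →
      ∀ i < w.length, |(shc (v.length + 1) p).1 (i + 1) - (shc (v.length + 1) p).1 i| ≤ Y := by
    intro p hp i hi
    have := hp (i + (v.length + 1)) (by omega)
    have h6 : i + (v.length + 1) + 1 = i + 1 + (v.length + 1) := by omega
    rw [h6] at this
    exact this
  have hdiff_v : ∀ (s : List Cfg), CloseT (v.length + 1 + w.length) ε s →
      (∀ p ∈ s, Om T (v.length + 1 + w.length) p) →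
      (∀ p ∈ s, ∀ i < v.length + 1 + w.length, |p.1 (i + 1) - p.1 i| ≤ Y) →
      ∀ p ∈ s, ∀ q ∈ s, Sw b v q ≤ Sw b v p + L1 * ε := by
    intro s hs1 hs2 hs3 p hp q hq
    have := hLoc1 p q ε hε.le (hOm_v p (hs2 p hp)) (hOm_v q (hs2 q hq)) (hY_v p (hs3 p hp))
      (hY_v q (hs3 q hq)) (hclose_v s p q hs1 hp hq)
    rw [abs_le] at this
    linarith
  have hdiff_w : ∀ (s : List Cfg), CloseT (v.length + 1 + w.length) ε s →
      (∀ p ∈ s, Om T (v.length + 1 + w.length) p) →
      (∀ p ∈ s, ∀ i < v.length + 1 + w.length, |p.1 (i + 1) - p.1 i| ≤ Y) →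
      ∀ p ∈ s, ∀ q ∈ s, Sw b w (shc (v.length + 1) q) ≤ Sw b w (shc (v.length + 1) p) +
        L2 * ε := by
    intro s hs1 hs2 hs3 p hp q hq
    have := hLoc2 _ _ ε hε.le (hOm_w p (hs2 p hp)) (hOm_w q (hs2 q hq)) (hY_w p (hs3 p hp))
      (hY_w q (hs3 q hq)) (hclose_w s p q hs1 hp hq)
    rw [abs_le] at this
    linarith
  -- first term
  have hA : ∀ t ∈ z.support,
      (ev (hw v.length) (t.take (v.length + 1)) + cob η (t.take (v.length + 1))) *
        ev [g] (t.drop v.length) *
        (ev k (t.drop (v.length + 1)) + cob θ' (t.drop (v.length + 1))) = 0 := by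
    intro t ht
    obtain ⟨htl, htC, htP⟩ := hz1 t ht
    have htO : ∀ p ∈ t, Om T (v.length + 1 + w.length) p := fun p hp => (htP p hp).1.1
    have htS : ∀ p ∈ t, Sw b (v ++ idL :: w) p ≤ a := fun p hp => (htP p hp).1.2
    have htY : ∀ p ∈ t, ∀ i < v.length + 1 + w.length, |p.1 (i + 1) - p.1 i| ≤ Y :=
      fun p hp => (htP p hp).2
    by_cases hgz : ev [g] (t.drop v.length) = 0
    · rw [hgz, mul_zero, zero_mul]
    -- two neighbouring points
    obtain ⟨p, q, u, hpq⟩ : ∃ p q u, t.drop v.length = p :: q :: u := by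
      have hl : (t.drop v.length).length = w.length + 2 := by
        rw [List.length_drop, htl]; omega
      match h : t.drop v.length with
      | [] => rw [h] at hl; simp at hl
      | [x] => rw [h] at hl; simp at hl
      | x :: y :: u => exact ⟨x, y, u, rfl⟩
    have hp : p ∈ t := List.mem_of_mem_drop (i := v.length) (by rw [hpq]; simp)
    have hq : q ∈ t := List.mem_of_mem_drop (i := v.length) (by rw [hpq]; simp)
    have hgpq : g p + g q ≠ 0 := by
      intro h
      apply hgz
      rw [hpq, ev, h, zero_mul]
    have hSb : |p.2 v.length - b| ≤ ε := by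
      have hcl := (htC p hp q hq).2 v.length (by omega)
      rw [abs_le] at hcl ⊢
      simp only [hg] at hgpq
      by_cases c1 : p.2 v.length < b
      · by_cases c2 : q.2 v.length < b
        · rw [if_pos c1, if_pos c2] at hgpq
          exact absurd (CharTwo.add_self_eq_zero 1) hgpq
        · push Not at c2; constructor <;> linarith
      · by_cases c2 : q.2 v.length < b
        · push Not at c1; constructor <;> linarith
        · rw [if_neg c1, if_neg c2] at hgpq
          exact absurd (add_zero 0) hgpq
    have hmid : -δ ≤ (p.2 v.length - b) * (p.1 (v.length + 1) - p.1 v.length) := by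
      have h6 : |(p.2 v.length - b) * (p.1 (v.length + 1) - p.1 v.length)| ≤ ε * Y := by
        rw [abs_mul]
        exact mul_le_mul hSb (htY p hp v.length (by omega)) (abs_nonneg _) hε.le
      rw [abs_le] at h6
      linarith
    have hsum := htS p hp
    rw [Sw_append] at hsum
    rcases le_or_gt (Sw b v p) (a1 - δ) with hc | hc
    · -- the front part
      have h7 : ev (hw v.length) (t.take (v.length + 1)) = cob η (t.take (v.length + 1)) := by
        apply hη1
        · rw [List.length_take, htl]; omega
        · refine ⟨fun p' hp' q' hq' => ?_, fun p' hp' => ?_⟩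
          · have := hclose_v t p' q' htC (List.mem_of_mem_take hp') (List.mem_of_mem_take hq')
            exact ⟨fun i hi => (this.1 i hi).trans hεε1, fun i hi => (this.2 i hi).trans hεε1⟩
          · have hp'' := List.mem_of_mem_take hp'
            refine ⟨hOm_v p' (htO p' hp''), ?_⟩
            have := hdiff_v t htC htO htY p hp p' hp''
            linarith
      rw [h7, CharTwo.add_self_eq_zero, zero_mul, zero_mul]
    · have hc2 : Sw b w (shc (v.length + 1) p) ≤ a2 - δ := by
        have : a1 + a2 = a + 4 * δ := by rw [hδdef]; ring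
        linarith
      have h7 : ev k (t.drop (v.length + 1)) = cob θ' (t.drop (v.length + 1)) := by
        rw [hk, ev_map, hθ', cob_map]
        apply hθ1
        · rw [List.length_map, List.length_drop, htl]; omega
        · refine ⟨fun p' hp' q' hq' => ?_, fun p' hp' => ?_⟩
          · obtain ⟨p'', hp'', rfl⟩ := List.mem_map.mp hp'
            obtain ⟨q'', hq'', rfl⟩ := List.mem_map.mp hq'
            have := hclose_w t p'' q'' htC (List.mem_of_mem_drop hp'') (List.mem_of_mem_drop hq'')
            exact ⟨fun i hi => (this.1 i hi).trans hεε2, fun i hi => (this.2 i hi).trans hεε2⟩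
          · obtain ⟨p'', hp'', rfl⟩ := List.mem_map.mp hp'
            have hp3 := List.mem_of_mem_drop hp''
            refine ⟨hOm_w p'' (htO p'' hp3), ?_⟩
            have := hdiff_w t htC htO htY p hp p'' hp3
            linarith
      rw [h7, CharTwo.add_self_eq_zero, mul_zero]
  -- second term
  have hB : ∀ t ∈ (bd z).support,
      ev (hw v.length) (t.take (v.length + 1)) *
          u0 (fun p => hy v.length p + g p) (t.drop v.length) * ev k (t.drop v.length) +
        ev (hw v.length) (t.take (v.length + 1)) * ev [g] (t.drop v.length) *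
          θ' (t.drop (v.length + 1)) +
        η (t.take v.length) * ev [g] (t.drop (v.length - 1)) *
          (ev k (t.drop v.length) + cob θ' (t.drop v.length)) = 0 := by
    intro t ht
    obtain ⟨s, hs, hts⟩ := bd_support z t ht
    obtain ⟨hlen_t, hsub⟩ := bdL_support s t hts
    obtain ⟨htl, htC, htP⟩ := hz1 s hs
    rw [htl] at hlen_t
    have htC' : CloseT (v.length + 1 + w.length) ε t := fun p hp q hq =>
      htC p (hsub hp) q (hsub hq)
    have htO : ∀ p ∈ t, Om T (v.length + 1 + w.length) p := fun p hp => (htP p (hsub hp)).1.1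
    have htY : ∀ p ∈ t, ∀ i < v.length + 1 + w.length, |p.1 (i + 1) - p.1 i| ≤ Y :=
      fun p hp => (htP p (hsub hp)).2
    have htM : ∀ p ∈ t, Sw b (v ++ idL :: w) p ≤ -M := hz2 t ht
    obtain ⟨p, hp⟩ : ∃ p, p ∈ t := by
      have : t ≠ [] := by rintro rfl; simp at hlen_t
      exact List.exists_mem_of_ne_nil t this
    have hpM := htM p hp
    rw [Sw_append] at hpM
    rcases three hpM with hc | hc | hc
    · -- case v
      have hall : ∀ q ∈ t, Sw b v q ≤ -(M / 3) + 1 := by
        intro q hq
        have := hdiff_v t htC' htO htY p hp q hq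
        linarith
      obtain ⟨i, hi, hi3⟩ := hF1 p (hOm_v p (htO p hp)) (by linarith)
      have hcst := hy_const hε4 t htC' i (by omega) p hp hi3
      have e1 : ev (hw v.length) (t.take (v.length + 1)) = 0 := by
        apply ev_const _ _ (hy i)
        · rw [hw, List.mem_map]; exact ⟨i, List.mem_range.mpr hi, rfl⟩
        · intro q hq r hr
          exact hcst q (List.mem_of_mem_take hq) r (List.mem_of_mem_take hr)
      have e2 : η (t.take v.length) = 0 := by
        apply hη0
        intro q hq
        have := hall q (List.mem_of_mem_take hq)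
        linarith
      rw [e1, e2]; ring
    · -- case middle
      have hall : ∀ q ∈ t, (q.2 v.length - b) * (q.1 (v.length + 1) - q.1 v.length) ≤ -1 := by
        intro q hq
        have c1 := (htC' p hp q hq).2 v.length (by omega)
        have c2 := (htC' p hp q hq).1 v.length (by omega)
        have c3 := (htC' p hp q hq).1 (v.length + 1) (by omega)
        have c4 : |p.2 v.length - b| ≤ T := by
          have := htO p hp v.length (by omega)
          rw [abs_le]; constructor <;> linarith [this.1, this.2]
        have c5 := htY q hq v.length (by omega)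
        set A := p.2 v.length - b with hA'
        set B := p.1 (v.length + 1) - p.1 v.length with hB'
        set A' := q.2 v.length - b with hA''
        set B' := q.1 (v.length + 1) - q.1 v.length with hB''
        have d1 : |A - A'| ≤ ε := by
          have : A - A' = p.2 v.length - q.2 v.length := by rw [hA', hA'']; ring
          rw [this]; exact c1
        have d2 : |B - B'| ≤ 2 * ε := by
          have : B - B' = (p.1 (v.length + 1) - q.1 (v.length + 1)) -
            (p.1 v.length - q.1 v.length) := by rw [hB', hB'']; ring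
          rw [this]
          refine (abs_sub _ _).trans ?_
          linarith
        have d3 : |A * B - A' * B'| ≤ T * (2 * ε) + ε * Y := by
          have : A * B - A' * B' = A * (B - B') + (A - A') * B' := by ring
          rw [this]
          refine (abs_add_le _ _).trans ?_
          rw [abs_mul, abs_mul]
          exact add_le_add (mul_le_mul c4 d2 (abs_nonneg _) (by linarith))
            (mul_le_mul d1 c5 (abs_nonneg _) hε.le)
        rw [abs_le] at d3
        nlinarith [d3.1, d3.2]
      have hmg : ∀ q ∈ t, hy v.length q + g q = 0 := by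
        intro q hq
        have c1 := hall q hq
        simp only [hy, hg]
        by_cases c2 : 0 < q.1 (v.length + 1) - q.1 v.length
        · have c3 : q.2 v.length < b := by
            by_contra c3
            push Not at c3
            nlinarith
          rw [if_pos c2, if_pos c3]; exact CharTwo.add_self_eq_zero 1
        · have c3 : ¬ q.2 v.length < b := by
            intro c3
            push Not at c2
            nlinarith
          rw [if_neg c2, if_neg c3]; exact add_zero 0
      have hgc : ∀ q ∈ t, ∀ r ∈ t, g q = g r := by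
        have key : ∀ q ∈ t, ∀ r ∈ t, q.2 v.length < b → r.2 v.length < b := by
          intro q hq r hr hqb
          by_contra hrb
          push Not at hrb
          have c1 := hall q hq
          have c1' := hall r hr
          have c2 := (htC' q hq r hr).2 v.length (by omega)
          have c3 := (htC' q hq r hr).1 v.length (by omega)
          have c4 := (htC' q hq r hr).1 (v.length + 1) (by omega)
          rw [abs_le] at c2 c3 c4
          have d1 : 0 < q.1 (v.length + 1) - q.1 v.length := by
            by_contra h; push Not at h; nlinarith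
          have d2 : r.1 (v.length + 1) - r.1 v.length < 0 := by
            by_contra h; push Not at h; nlinarith
          have d3 : q.1 (v.length + 1) - q.1 v.length ≤ 2 * ε := by linarith
          have d4 : b - q.2 v.length ≤ ε := by linarith
          nlinarith
        intro q hq r hr
        simp only [hg]
        by_cases c : q.2 v.length < b
        · rw [if_pos c, if_pos (key q hq r hr c)]
        · rw [if_neg c, if_neg (fun h => c (key r hr q hq h))]
      have e1 : u0 (fun p => hy v.length p + g p) (t.drop v.length) = 0 := by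
        match h : t.drop v.length with
        | [] => rfl
        | x :: u =>
          have : x ∈ t := List.mem_of_mem_drop (i := v.length) (by rw [h]; simp)
          exact hmg x this
      have e2 : ∀ j, ev [g] (t.drop j) = 0 := fun j => by
        apply ev_const _ _ g (by simp)
        intro q hq r hr
        exact hgc q (List.mem_of_mem_drop hq) r (List.mem_of_mem_drop hr)
      rw [e1, e2, e2]; ring
    · -- case w
      have hall : ∀ q ∈ t, Sw b w (shc (v.length + 1) q) ≤ -(M / 3) + 1 := by
        intro q hq
        have := hdiff_w t htC' htO htY p hp q hq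
        linarith
      obtain ⟨i, hi, hi3⟩ := hF2 _ (hOm_w p (htO p hp)) (by linarith)
      have hcst := hy_const (N := w.length) hε4 (t.map (shc (v.length + 1)))
        (by
          intro p' hp' q' hq'
          obtain ⟨p'', hp'', rfl⟩ := List.mem_map.mp hp'
          obtain ⟨q'', hq'', rfl⟩ := List.mem_map.mp hq'
          exact hclose_w t p'' q'' htC' hp'' hq'') i hi _ (List.mem_map_of_mem hp) hi3
      have e1 : ev k (t.drop v.length) = 0 := by
        rw [hk, ev_map]
        apply ev_const _ _ (hy i)
        · rw [hw, List.mem_map]; exact ⟨i, List.mem_range.mpr hi, rfl⟩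
        · intro q hq r hr
          have hsub : (t.drop v.length).map (shc (v.length + 1)) ⊆ t.map (shc (v.length + 1)) :=
            List.map_subset _ (List.drop_subset _ _)
          exact hcst q (hsub hq) r (hsub hr)
      have e0 : ∀ s, s ⊆ t → θ' s = 0 := by
        intro s hs
        apply hθ0
        intro q hq
        obtain ⟨q', hq', rfl⟩ := List.mem_map.mp hq
        have := hall q' (hs hq')
        linarith
      have e2 : θ' (t.drop (v.length + 1)) = 0 := e0 _ (List.drop_subset _ _)
      have e3 : cob θ' (t.drop v.length) = 0 :=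
        cob_zero _ _ fun s hs => e0 s (fun x hx => List.drop_subset _ _ (hs hx))
      rw [e1, e2, e3]; ring
  rw [pr_eq_zero hA, pr_eq_zero hB, add_zero] at hz3
  exact zero_ne_one hz3

end Pool.Agent.W103.DP
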